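import Pool.Agent.Helper70.BRT.Spec

/-! # MOD: `BRTModel`s are models of `RCA₀ + BRT` -/

namespace Pool.Agent.Helper70.BRT

universe u

open BRTStmt

theorem Mod_term_shift {M : Type u} [PModel M] (t : NTerm) (x : M) (v : ℕ → M) :
    t.shift.eval (scons x v) = t.eval v := by
  induction t with
  | var i => rfl
  | zero => rfl
  | one => rfl
  | add s t hs ht => simp only [NTerm.shift, NTerm.eval, hs, ht]
  | mul s t hs ht => simp only [NTerm.shift, NTerm.eval, hs, ht]

theorem Mod_term {M : Type u} [PModel M] {A : ℕ → Set M} (t : NTerm) {Γ : Type u} [Ctx M Γ]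
    {v : Γ → ℕ → M} (hv : ∀ i, Rec A (fun g => v g i)) : Rec A (fun g => t.eval (v g)) := by
  induction t with
  | var i => exact hv i
  | zero => exact Rec.const (0 : M)
  | one => exact Rec.const (1 : M)
  | add s t hs ht => exact hs.add ht
  | mul s t hs ht => exact hs.mul ht

theorem Mod_delta {ψ : Form} (hψ : IsDelta00 ψ) : ∃ N : ℕ, ∀ (M : Type u) [PModel M]
    (𝒮 : Set (Set M)) (A : ℕ → Set M), Coll1 A → ∀ V : ℕ → Set M,
    (∀ i, i < N → RecP A (fun x => x ∈ V i)) → ∀ (Γ : Type u) [Ctx M Γ] (v : Γ → ℕ → M),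
    (∀ i, Rec A (fun g => v g i)) → RecP A (fun g => ψ.eval 𝒮 V (v g)) := by
  induction hψ with
  | eq s t =>
    refine ⟨0, fun M _ 𝒮 A _ V _ Γ _ v hv => ?_⟩
    exact RecP.eq (Mod_term s hv) (Mod_term t hv)
  | lt s t =>
    refine ⟨0, fun M _ 𝒮 A _ V _ Γ _ v hv => ?_⟩
    exact RecP.lt (Mod_term s hv) (Mod_term t hv)
  | mem t X =>
    refine ⟨X + 1, fun M _ 𝒮 A _ V hV Γ _ v hv => ?_⟩
    exact RecP.comp (R := fun x : M => x ∈ V X) (hV X (Nat.lt_succ_self X)) (Mod_term t hv)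
  | neg _ ih =>
    obtain ⟨N, hN⟩ := ih
    refine ⟨N, fun M _ 𝒮 A hA V hV Γ _ v hv => ?_⟩
    exact (hN M 𝒮 A hA V hV Γ v hv).not
  | and _ _ ih1 ih2 =>
    obtain ⟨N1, hN1⟩ := ih1
    obtain ⟨N2, hN2⟩ := ih2
    refine ⟨max N1 N2, fun M _ 𝒮 A hA V hV Γ _ v hv => ?_⟩
    exact (hN1 M 𝒮 A hA V (fun i hi => hV i (lt_of_lt_of_le hi (le_max_left _ _))) Γ v hv).and
      (hN2 M 𝒮 A hA V (fun i hi => hV i (lt_of_lt_of_le hi (le_max_right _ _))) Γ v hv)
  | @ball t φ _ ih =>
    obtain ⟨N, hN⟩ := ih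
    refine ⟨N, fun M _ 𝒮 A hA V hV Γ _ v hv => ?_⟩
    have h1 : RecP A (fun g : Γ × M => φ.eval 𝒮 V (scons g.2 (v g.1))) := by
      refine hN M 𝒮 A hA V hV (Γ × M) (fun g => scons g.2 (v g.1)) ?_
      intro i
      cases i with
      | zero => exact PMap.id.snd.rec
      | succ i => exact (hv i).comp PMap.id.fst.rec
    have h2 := RecP.ball hA (Mod_term t hv) (R := fun g x => φ.eval 𝒮 V (scons x (v g))) h1
    refine h2.congr fun g => ?_
    simp only [Form.eval, Form.imp, NTerm.eval, Mod_term_shift]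
    refine forall_congr' fun x => ?_
    change ¬ (x < t.eval (v g) ∧ ¬ φ.eval 𝒮 V (scons x (v g))) ↔ _
    tauto

/-- `Σ⁰₁` formulas define `Σ₁` relations. -/
theorem Mod_sigma {φ : Form} (hφ : IsSigma01 φ) : ∃ N : ℕ, ∀ (M : Type u) [PModel M]
    (𝒮 : Set (Set M)) (A : ℕ → Set M), Coll1 A → ∀ V : ℕ → Set M,
    (∀ i, i < N → RecP A (fun x => x ∈ V i)) → ∀ (v : ℕ → M),
    Sig1 A (fun x : M => φ.eval 𝒮 V (scons x v)) := by
  obtain ⟨ψ, hψ, rfl⟩ := hφ
  obtain ⟨N, hN⟩ := Mod_delta.{u} hψ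
  refine ⟨N, fun M _ 𝒮 A hA V hV v => ?_⟩
  have h1 : RecP A (fun g : M × M => ψ.eval 𝒮 V (scons g.2 (scons g.1 v))) := by
    refine hN M 𝒮 A hA V hV (M × M) (fun g => scons g.2 (scons g.1 v)) ?_
    intro i
    match i with
    | 0 => exact PMap.id.snd.rec
    | 1 => exact PMap.id.fst.rec
    | i + 2 => exact Rec.const (v i)
  refine (Sig1.ex (R := fun x y => ψ.eval 𝒮 V (scons y (scons x v))) h1.1).congr fun x => ?_
  simp only [Form.exN, Form.eval]
  push Not
  rfl

theorem Mod_pminus (M : Type u) [PModel M] : PMinus M where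
  add_assoc := add_assoc
  add_comm := add_comm
  mul_assoc := mul_assoc
  mul_comm := mul_comm
  mul_add := mul_add
  add_zero := add_zero
  mul_zero := mul_zero
  mul_one := mul_one
  lt_trans := fun _ _ _ => lt_trans
  lt_irrefl := lt_irrefl
  lt_total := lt_trichotomy
  add_lt_add := fun x y z h => PModel.add_lt_add_right'' x y z h
  mul_lt_mul := fun x y z hz h => PModel.mul_lt_mul_right'' x y z h hz
  exists_add := fun x y h => PModel.exists_add'' x y h.le
  zero_lt_one := PModel.zero_lt_one''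
  discrete := fun x h => by
    rcases (PModel.discrete'' x h).eq_or_lt with h1 | h1
    · exact Or.inl h1.symm
    · exact Or.inr h1
  nonneg := fun x => by
    rcases (PModel.zero_le'' x).eq_or_lt with h1 | h1
    · exact Or.inl h1.symm
    · exact Or.inr h1

section size

variable {M : Type u} [PModel M] {bd pw card : M → M} (hC : CodAPI M bd) (hP : PrimAPI M pw card)
  (hK : CardAPI M card) {A : ℕ → Set M} (hA : Nice A)

include hC hA in
theorem Mod_mk (Q n x : M) : el x (mk n (fun y => el y Q)) ↔ x < n ∧ el x Q := by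
  refine hC.mk_spec A hA.base (fun y => el y Q) ?_ n x
  exact RecP.comp (R := fun z : M × M => el z.1 z.2) (hC.el_rec.of_pure A)
    (Rec.id.prodMk (Rec.const Q))

include hC hP hA in
theorem Mod_rank_rec (Q : M) : Rec A (fun x : M => card (mk x (fun y => el y Q))) := by
  have h1 : Rec A (fun x : M => mk x (fun y => el y Q)) := by
    refine hC.mk_rec A hA.base M (fun _ y => el y Q) (fun x => x) ?_ Rec.id
    exact RecP.comp (R := fun z : M × M => el z.1 z.2) (hC.el_rec.of_pure A)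
      (PMap.id.snd.rec.prodMk (Rec.const Q))
  exact Rec.comp (F := card) (hP.card_rec.of_pure A) h1

include hC hK hA in
theorem Mod_rank_lt (Q : M) {x y : M} (hxy : x < y) (hx : el x Q) :
    card (mk x (fun z => el z Q)) < card (mk y (fun z => el z Q)) := by
  refine hK.strict _ _ x ?_ ?_ ?_
  · intro z hz
    rw [Mod_mk hC hA] at hz ⊢
    exact ⟨hz.1.trans hxy, hz.2⟩
  · rw [Mod_mk hC hA]
    exact ⟨hxy, hx⟩
  · rw [Mod_mk hC hA]
    exact fun h => lt_irrefl _ h.1

include hC hP hK hA in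
theorem Mod_rank_ex (Q : M) {i : M} (hi : i < card Q) :
    ∃ x, el x Q ∧ card (mk x (fun z => el z Q)) = i := by
  have hrec := Mod_rank_rec hC hP hA Q
  have h1 : RecP A (fun x : M => i < card (mk x (fun z => el z Q))) :=
    RecP.lt (Rec.const i) hrec
  have h2 : ∃ x : M, i < card (mk x (fun z => el z Q)) := by
    refine ⟨Q, lt_of_lt_of_le hi (hK.mono _ _ ?_)⟩
    intro x hx
    rw [Mod_mk hC hA]
    exact ⟨hC.el_lt x Q hx, hx⟩
  obtain ⟨x, hx, hmin⟩ := hA.base.lnp h1 h2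
  have hx0 : x ≠ 0 := by
    rintro rfl
    rw [hP.card_empty _ (fun y hy => ?_)] at hx
    · exact not_lt_zero'' i hx
    · rw [Mod_mk hC hA] at hy
      exact not_lt_zero'' y hy.1
  obtain ⟨z, rfl⟩ := exists_pred hx0
  have hz := not_lt.mp (hmin z (lt_add_one' z))
  by_cases hez : el z Q
  · refine ⟨z, hez, ?_⟩
    have h3 : card (mk (z + 1) (fun w => el w Q)) = card (mk z (fun w => el w Q)) + 1 := by
      refine hP.card_insert _ _ z ?_ ?_
      · rw [Mod_mk hC hA]
        exact fun h => lt_irrefl _ h.1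
      · intro w
        rw [Mod_mk hC hA, Mod_mk hC hA, lt_add_one_iff']
        constructor
        · rintro ⟨h4, h5⟩
          rcases h4.eq_or_lt with h6 | h6
          · exact Or.inr h6
          · exact Or.inl ⟨h6, h5⟩
        · rintro (⟨h4, h5⟩ | rfl)
          · exact ⟨h4.le, h5⟩
          · exact ⟨le_rfl, hez⟩
    rw [h3, lt_add_one_iff'] at hx
    exact le_antisymm hz hx
  · exfalso
    have h3 : card (mk (z + 1) (fun w => el w Q)) = card (mk z (fun w => el w Q)) := by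
      refine hK.congr _ _ fun w => ?_
      rw [Mod_mk hC hA, Mod_mk hC hA, lt_add_one_iff']
      constructor
      · rintro ⟨h4, h5⟩
        rcases h4.eq_or_lt with h6 | h6
        · exact absurd (h6 ▸ h5) hez
        · exact ⟨h6, h5⟩
      · rintro ⟨h4, h5⟩
        exact ⟨h4.le, h5⟩
    rw [h3] at hx
    exact absurd hx (not_lt.mpr hz)

end size

/-- **MOD** -/
theorem st_MOD : ST_MOD.{u} := by
  intro M _ hbd pw card hP hK 𝒮 hne hB
  obtain ⟨bd, hC⟩ := hbd
  refine ⟨⟨Mod_pminus M, hne, ?_, ?_⟩, ?_⟩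
  · intro φ hφ V hV v h0 hs
    obtain ⟨N, hN⟩ := Mod_sigma.{u} hφ
    obtain ⟨A, hA, hAV, -⟩ := hB.join V hV N
    exact hA.ind _ (hN M 𝒮 A hA.coll1 V hAV v) h0 hs
  · intro φ ψ hφ hψ V hV v hiff
    obtain ⟨N1, hN1⟩ := Mod_sigma.{u} hφ
    obtain ⟨N2, hN2⟩ := Mod_sigma.{u} hψ
    obtain ⟨A, hA, hAV, hAS⟩ := hB.join V hV (max N1 N2)
    refine hAS _ ⟨?_, ?_⟩
    · exact hN1 M 𝒮 A hA.coll1 V (fun i hi => hAV i (lt_of_lt_of_le hi (le_max_left _ _))) v
    · refine (hN2 M 𝒮 A hA.coll1 V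
        (fun i hi => hAV i (lt_of_lt_of_le hi (le_max_right _ _))) v).congr fun x => ?_
      change ¬ φ.eval 𝒮 V (scons x v) ↔ _
      rw [hiff x, not_not]
  · intro F hF l hl
    refine hB.brt F hF l ?_
    intro Q hQ
    by_contra hcard
    have hcard' : l ≤ card Q := not_lt.mp hcard
    obtain ⟨A, hA, -, hAS⟩ := hB.join (fun _ => F) (fun _ => hF) 0
    have hrec := Mod_rank_rec hC hP hA Q
    have hel : RecP A (fun x : M => el x Q) :=
      RecP.comp (R := fun z : M × M => el z.1 z.2) (hC.el_rec.of_pure A)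
        (Rec.id.prodMk (Rec.const Q))
    set r : M → M := fun x => card (mk x (fun y => el y Q)) with hr
    set X : Set M := {x | el x Q ∧ r x < l} with hX
    set G : Set M := {z | ∃ x, x < z + 1 ∧ (z = pair (r x) x ∧ (el x Q ∧ r x < l))} with hG
    have hXS : X ∈ 𝒮 := hAS X (hel.and (RecP.lt hrec (Rec.const l)))
    have hGS : G ∈ 𝒮 := by
      refine hAS G ?_
      refine RecP.bex hA.coll1 (t := fun z : M => z + 1)
        (R := fun z x => z = pair (r x) x ∧ (el x Q ∧ r x < l)) (Rec.id.add (Rec.const 1)) ?_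
      have hr2 : Rec A (fun g : M × M => r g.2) := Rec.comp (F := r) hrec PMap.id.snd.rec
      refine (RecP.eq PMap.id.fst.rec (Rec.pair hr2 PMap.id.snd.rec)).and
        (RecP.and (hel.comp PMap.id.snd.rec) (RecP.lt hr2 (Rec.const l)))
    have hmem : ∀ i x : M, code i x ∈ G ↔ (i = r x ∧ el x Q ∧ r x < l) := by
      intro i x
      change (∃ x', x' < pair i x + 1 ∧ (pair i x = pair (r x') x' ∧ (el x' Q ∧ r x' < l))) ↔ _
      constructor
      · rintro ⟨x', -, h1, h2, h3⟩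
        obtain ⟨h4, h5⟩ := pair_inj h1
        subst h5
        exact ⟨h4, h2, h3⟩
      · rintro ⟨h1, h2, h3⟩
        refine ⟨x, lt_add_one_iff'.mpr (le_pair_right i x), ?_, h2, h3⟩
        rw [h1]
    refine hl X hXS ?_ ⟨G, hGS, ?_, ?_⟩
    · intro x hx y hy hxy
      exact hQ x y hxy hx.1 hy.1
    · intro i hi
      obtain ⟨x, hx1, hx2⟩ := Mod_rank_ex hC hP hK hA Q (lt_of_lt_of_le hi hcard')
      have hrx : r x = i := hx2
      refine ⟨x, ⟨⟨hx1, hrx ▸ hi⟩, (hmem i x).mpr ⟨hrx.symm, hx1, hrx ▸ hi⟩⟩, ?_⟩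
      rintro y ⟨hy1, hy2⟩
      obtain ⟨h3, h4, -⟩ := (hmem i y).mp hy2
      rcases lt_trichotomy x y with h5 | h5 | h5
      · have := Mod_rank_lt hC hK hA Q h5 hx1
        change r x < r y at this
        rw [hrx, ← h3] at this
        exact absurd this (lt_irrefl _)
      · exact h5.symm
      · have := Mod_rank_lt hC hK hA Q h5 h4
        change r y < r x at this
        rw [hrx, ← h3] at this
        exact absurd this (lt_irrefl _)
    · intro x hx
      refine ⟨r x, ⟨hx.2, (hmem (r x) x).mpr ⟨rfl, hx.1, hx.2⟩⟩, ?_⟩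
      rintro i ⟨-, hi⟩
      exact ((hmem i x).mp hi).1

end Pool.Agent.Helper70.BRT
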